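import Pool.Agent.Lib.MP_3ee548_nt.RS.Iface

set_option autoImplicit false

open scoped BigOperators

namespace Pool.Agent.Lib.MP_3ee548_nt.RS.H63

open Pool.Agent.Lib.MP_3ee548_nt.RS

theorem exp_bound (m : ℕ) (X : ℝ) (hX : 1 ≤ X) :
    Real.exp (-Real.pi * X * Real.sqrt ((m : ℝ) + 1)) ≤ 1 / 4 * (1 / ((m : ℝ) + 1) ^ 2) := by
  have hpi := Real.pi_gt_three
  have hm : (0 : ℝ) < (m : ℝ) + 1 := by positivity
  have hs : 0 ≤ Real.sqrt ((m : ℝ) + 1) := Real.sqrt_nonneg _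
  have h1 : -Real.pi * X * Real.sqrt ((m : ℝ) + 1) ≤ -(Real.pi * Real.sqrt ((m : ℝ) + 1)) := by
    have : Real.pi * Real.sqrt ((m : ℝ) + 1) * 1 ≤ Real.pi * Real.sqrt ((m : ℝ) + 1) * X :=
      mul_le_mul_of_nonneg_left hX (by positivity)
    nlinarith
  have h2 : Real.exp (-(Real.pi * Real.sqrt ((m : ℝ) + 1))) ≤ 1 / 4 * (1 / ((m : ℝ) + 1) ^ 2) := by
    rw [Real.exp_neg]
    have h3 : (Real.pi * Real.sqrt ((m : ℝ) + 1)) ^ 4 / (Nat.factorial 4 : ℝ)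
        ≤ Real.exp (Real.pi * Real.sqrt ((m : ℝ) + 1)) :=
      Real.pow_div_factorial_le_exp _ (by positivity) 4
    have h4 : (Real.sqrt ((m : ℝ) + 1)) ^ 4 = ((m : ℝ) + 1) ^ 2 := by
      rw [show (4 : ℕ) = 2 * 2 by norm_num, pow_mul, Real.sq_sqrt hm.le]
    have h5 : (96 : ℝ) ≤ Real.pi ^ 4 := by
      have := Real.pi_gt_d2
      have h6 : (3.14 : ℝ) ^ 4 ≤ Real.pi ^ 4 := by
        apply pow_le_pow_left₀ (by norm_num) this.le
      norm_num at h6 ⊢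
      linarith
    have h7 : 4 * ((m : ℝ) + 1) ^ 2 ≤ Real.exp (Real.pi * Real.sqrt ((m : ℝ) + 1)) := by
      refine le_trans ?_ h3
      rw [mul_pow, h4]
      have : (Nat.factorial 4 : ℝ) = 24 := by norm_num [Nat.factorial]
      rw [this, le_div_iff₀ (by norm_num)]
      nlinarith [sq_nonneg ((m : ℝ) + 1)]
    rw [show 1 / 4 * (1 / ((m : ℝ) + 1) ^ 2) = (4 * ((m : ℝ) + 1) ^ 2)⁻¹ by
      field_simp]
    exact inv_anti₀ (by positivity) h7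
  exact le_trans (Real.exp_le_exp.mpr h1) h2

theorem summable_sq : Summable (fun m : ℕ => 1 / 4 * (1 / ((m : ℝ) + 1) ^ 2)) := by
  have h := (summable_nat_add_iff 1).mpr (Real.summable_one_div_nat_pow.mpr (by norm_num : 1 < 2))
  apply Summable.mul_left
  refine h.congr fun m => ?_
  push_cast
  rfl

theorem tsum_sq : ∑' m : ℕ, 1 / 4 * (1 / ((m : ℝ) + 1) ^ 2) ≤ 1 := by
  have h := hasSum_zeta_two
  have h1 : ∑' m : ℕ, (1 : ℝ) / ((m : ℝ) + 1) ^ 2 = Real.pi ^ 2 / 6 := by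
    have h2 := h.summable.tsum_eq_zero_add
    rw [h.tsum_eq] at h2
    simp only [Nat.cast_zero, ne_eq, OfNat.ofNat_ne_zero, not_false_eq_true, zero_pow, div_zero,
      zero_add] at h2
    rw [h2]
    refine tsum_congr fun m => ?_
    push_cast
    rfl
  rw [tsum_mul_left, h1]
  have := Real.pi_lt_d2
  have hp := Real.pi_pos
  nlinarith

theorem dual (hP : PoiStatement) (h1 : Root1Statement) (h2 : Root2Statement) :
    DualStatement := by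
  intro N X hN hX hNX
  have hX0 : 0 < X := by linarith
  obtain ⟨c, hc⟩ : ∃ c : ℝ, c = (X ^ 2 - N ^ 2 / X ^ 2) / 2 := ⟨_, rfl⟩
  obtain ⟨a, ha⟩ : ∃ a : ℂ, a = (N : ℂ) - (c : ℝ) * Complex.I := ⟨_, rfl⟩
  have hre : a.re = N := by rw [ha]; simp
  have hroot : a ^ (1 / 2 : ℂ) = ra N X := by
    rw [ha, hc]; exact (h1 N X 1 hN hX0 hNX one_pos).1
  obtain ⟨hs, hid⟩ := hP a (1 / N) (by rw [hre]; exact hN) (by positivity)
  rw [hroot] at hs hid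
  obtain ⟨F, hF⟩ : ∃ F : ℤ → ℂ, F = fun m : ℤ => Complex.exp (-2 * (Real.pi : ℂ) *
    (ra N X * (((1 / N : ℝ) : ℂ) + 2 * Complex.I * m) ^ (1 / 2 : ℂ))) := ⟨_, rfl⟩
  rw [← hF] at hid
  have hs' : Summable (fun m : ℤ => ‖F m‖) := by rw [hF]; exact hs
  have hneg : ∀ mu : ℕ, F (-((mu : ℤ) + 1)) = EE N X ((mu : ℝ) + 1) := by
    intro mu
    have := (h1 N X ((mu : ℝ) + 1) hN hX0 hNX (by positivity)).2
    rw [← this, hF]
    simp only
    congr 5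
    push_cast
    ring
  have hsF : Summable F := hs'.of_norm
  have hsn : Summable (fun mu : ℕ => ‖F (-((mu : ℤ) + 1))‖) := by
    have : Function.Injective (fun mu : ℕ => (-((mu : ℤ) + 1))) := by
      intro x y hxy
      simp only at hxy
      omega
    exact hs'.comp_injective this
  have hsp : Summable (fun mu : ℕ => ‖F (mu : ℤ)‖) := by
    exact hs'.comp_injective Nat.cast_injective
  refine ⟨by simpa only [hneg] using hsn, ?_⟩
  have hsplit : ∑' m : ℤ, F m = ∑' m : ℕ, F (m : ℤ) + ∑' m : ℕ, F (-((m : ℤ) + 1)) :=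
    tsum_of_nat_of_neg_add_one hsp.of_norm hsn.of_norm
  have hlhs : ra N X * ((N ^ (-(3 / 2) : ℝ) : ℝ) : ℂ) *
      (∑' n : ℕ, ((H (((n : ℝ) + 1) / N) : ℝ) : ℂ) *
      e ((X ^ 2 - N ^ 2 / X ^ 2) / 4 * (1 / ((n : ℝ) + 1)))) = ∑' m : ℤ, F m := by
    rw [← hid, mul_assoc]
    congr 1
    rw [← tsum_mul_left]
    refine tsum_congr fun n => ?_
    have hn : (0 : ℝ) < (n : ℝ) + 1 := by positivity
    have hpow : N ^ (-(3 / 2) : ℝ) * (((n : ℝ) + 1) / N) ^ (-(3 / 2) : ℝ)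
        = ((n : ℝ) + 1) ^ (-(3 / 2) : ℝ) := by
      rw [← Real.mul_rpow hN.le (by positivity)]
      congr 1
      field_simp
    have hexp : ((h0 (((n : ℝ) + 1) / N) : ℝ) : ℂ) *
        e ((X ^ 2 - N ^ 2 / X ^ 2) / 4 * (1 / ((n : ℝ) + 1)))
        = Complex.exp (-(Real.pi : ℂ) * a / (n + 1) - (Real.pi : ℂ) * (1 / N : ℝ) * (n + 1)) := by
      unfold h0 e
      rw [Complex.ofReal_exp, ← Complex.exp_add]
      congr 1
      have e1 : (X ^ 2 - N ^ 2 / X ^ 2) / 4 = c / 2 := by rw [hc]; ring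
      rw [e1, ha]
      have hnc : (n : ℂ) + 1 ≠ 0 := by
        have : ((n : ℝ) + 1 : ℝ) ≠ 0 := hn.ne'
        exact_mod_cast this
      have hNc : (N : ℂ) ≠ 0 := by exact_mod_cast hN.ne'
      push_cast
      field_simp
      ring
    rw [H]
    calc ((N ^ (-(3 / 2) : ℝ) : ℝ) : ℂ) *
        ((((((n : ℝ) + 1) / N) ^ (-(3 / 2) : ℝ) * h0 (((n : ℝ) + 1) / N) : ℝ) : ℂ) *
          e ((X ^ 2 - N ^ 2 / X ^ 2) / 4 * (1 / ((n : ℝ) + 1))))
        = ((N ^ (-(3 / 2) : ℝ) * (((n : ℝ) + 1) / N) ^ (-(3 / 2) : ℝ) : ℝ) : ℂ) *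
          (((h0 (((n : ℝ) + 1) / N) : ℝ) : ℂ) *
          e ((X ^ 2 - N ^ 2 / X ^ 2) / 4 * (1 / ((n : ℝ) + 1)))) := by
            push_cast
            ring
      _ = _ := by rw [hpow, hexp]
  rw [hlhs, hsplit]
  simp only [hneg]
  rw [add_sub_cancel_right]
  have hval : ∀ m : ℕ, ‖F (m : ℤ)‖ ≤ Real.exp (-Real.pi * X * Real.sqrt (m : ℝ)) := by
    intro m
    have := h2 N X (m : ℝ) hN hX0 hNX (by positivity)
    have harg : ((1 / N : ℝ) : ℂ) + 2 * Complex.I * ((m : ℤ) : ℂ)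
        = ((1 / N : ℝ) : ℂ) + 2 * ((m : ℝ) : ℂ) * Complex.I := by
      push_cast
      ring
    have hFm : F (m : ℤ) = Complex.exp (-2 * (Real.pi : ℂ) *
        (ra N X * (((1 / N : ℝ) : ℂ) + 2 * ((m : ℝ) : ℂ) * Complex.I) ^ (1 / 2 : ℂ))) := by
      rw [hF]
      simp only
      rw [harg]
    rw [hFm]
    exact this
  have hb0 : ‖F ((0 : ℕ) : ℤ)‖ ≤ 1 := by
    have := hval 0
    simpa using this
  have hb : ∀ m : ℕ, ‖F ((m + 1 : ℕ) : ℤ)‖ ≤ 1 / 4 * (1 / ((m : ℝ) + 1) ^ 2) := by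
    intro m
    refine le_trans (le_trans (hval (m + 1)) (le_of_eq ?_)) (exp_bound m X hX)
    push_cast
    rfl
  calc ‖∑' m : ℕ, F (m : ℤ)‖ ≤ ∑' m : ℕ, ‖F (m : ℤ)‖ := norm_tsum_le_tsum_norm hsp
    _ = ‖F ((0 : ℕ) : ℤ)‖ + ∑' m : ℕ, ‖F ((m + 1 : ℕ) : ℤ)‖ := hsp.tsum_eq_zero_add
    _ ≤ 1 + 1 := by
        refine add_le_add hb0 (le_trans ?_ tsum_sq)
        exact ((summable_nat_add_iff 1).mpr hsp).tsum_le_tsum hb summable_sq
    _ = 2 := by norm_num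

end Pool.Agent.Lib.MP_3ee548_nt.RS.H63
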